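import Pool.Agent.X198.SuitTop

/-!
# A linearly ordered abelian topological group without suitable set
-/

set_option autoImplicit false

namespace Pool.Agent.Results.MP_41e59e_gt.NoSuitable

open Set Pool.Agent.X198.SuitB Pool.Agent.Helper761.Om

/-- `S` is a suitable set for the topological group `G`: it is a discrete subspace, `S ∪ {1}` is
closed and the subgroup generated by `S` is dense. -/
def IsSuitable (G : Type) [Group G] [TopologicalSpace G] (S : Set G) : Prop :=
  DiscreteTopology S ∧ IsClosed (S ∪ {1}) ∧ Dense ((Subgroup.closure S : Subgroup G) : Set G)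

/-- There is a totally disconnected abelian topological group whose topology is the order topology
of a translation invariant linear order, which is not separable, in which no point is a `G_δ`, and
which has no suitable set. -/
theorem result :
    ∃ (G : Type) (_ : CommGroup G) (_ : TopologicalSpace G) (_ : IsTopologicalGroup G)
      (_ : LinearOrder G), OrderTopology G ∧ (∀ a b c : G, a < b → a * c < b * c) ∧
      TotallyDisconnectedSpace G ∧ ¬ TopologicalSpace.SeparableSpace G ∧
      (∀ x : G, ¬ IsGδ ({x} : Set G)) ∧ ∀ S : Set G, ¬ IsSuitable G S := by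
  obtain ⟨ι, i1, i2, hc, hu⟩ := exists_omega1
  obtain ⟨b, -⟩ := hu ∅ countable_empty
  have : Nonempty ι := ⟨b⟩
  obtain ⟨C, hC⟩ := exists_ladder hc
  have h1 : @TotallySeparatedSpace (BT C) (tB C) := totSep hu
  exact ⟨BT C, inferInstance, tB C, topGroup, loB C, ordTop hu, fun a b c h => mul_lt_mulB c h,
    @TotallySeparatedSpace.totallyDisconnectedSpace _ (tB C) h1, not_sep hu, not_gdelta hu,
    fun S hS => no_suitable_tB hc hu hC S hS.1 hS.2.1 hS.2.2⟩

end Pool.Agent.Results.MP_41e59e_gt.NoSuitable
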